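import Pool.Agent.U830.FA.Stm

/-! # Project FA, package CT: the number of the exponents -/

set_option autoImplicit false

namespace Pool.Agent.U439.FA

open Pool.Agent.U830.FA

theorem t_CT : S_CT := by
  intro n q k hq
  have hcard : (Fintype.piFinset fun _ : Fin n => Finset.range q).card = q ^ n := by
    rw [Fintype.card_piFinset]
    simp
  rw [← hcard]
  refine Finset.card_le_card_of_injOn (fun a => fun i : Fin n => a i.succ) ?_ ?_
  · intro a ha
    have h1 := (Finset.mem_filter.1 (Finset.mem_coe.1 ha)).1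
    rw [Fintype.mem_piFinset] at h1
    exact Finset.mem_coe.2 (Fintype.mem_piFinset.2 fun i => h1 i.succ)
  · intro a ha b hb hab
    obtain ⟨a1, a2, a3⟩ := Finset.mem_filter.1 (Finset.mem_coe.1 ha)
    obtain ⟨b1, b2, b3⟩ := Finset.mem_filter.1 (Finset.mem_coe.1 hb)
    rw [Fintype.mem_piFinset] at a1 b1
    have ea := Finset.mem_range.1 (a1 0)
    have eb := Finset.mem_range.1 (b1 0)
    have hs : ∀ i : Fin n, a i.succ = b i.succ := fun i => congrFun hab i
    have hsum : ∑ i : Fin n, a i.succ = ∑ i : Fin n, b i.succ :=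
      Finset.sum_congr rfl fun i _ => hs i
    rw [Fin.sum_univ_succ] at a2 a3 b2 b3
    rw [← hsum] at b2 b3
    generalize (∑ i : Fin n, a i.succ) = s at *
    have h0 : a 0 = b 0 := by
      obtain ⟨u, hu⟩ := a3
      obtain ⟨w, hw⟩ := b3
      have h1 : k = a 0 + s + q * u := by omega
      have h2 : k = b 0 + s + q * w := by omega
      have h3 : a 0 + q * u = b 0 + q * w := by omega
      have h4 : (a 0 + q * u) % q = (b 0 + q * w) % q := by rw [h3]
      rw [Nat.add_mul_mod_self_left, Nat.add_mul_mod_self_left, Nat.mod_eq_of_lt ea,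
        Nat.mod_eq_of_lt eb] at h4
      exact h4
    funext i
    refine Fin.cases h0 hs i

end Pool.Agent.U439.FA
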